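import Pool.Agent.W2helper93.KC.Stm

/-!
# Project KC, piece HERG: Herglotz' theorem for the frequencies of the differences
-/

set_option autoImplicit false

open MeasureTheory Filter Topology AddCircle
open scoped ComplexConjugate

namespace Pool.Agent.W2helper12.KC

open Pool.Agent.W2helper93.KC

instance : Fact ((0 : ℝ) < 1) := ⟨one_pos⟩

lemma int_fourier (n : ℤ) :
    ∫ z : AddCircle (1 : ℝ), (fourier n z : ℂ) ∂haarAddCircle = if n = 0 then 1 else 0 := by
  split_ifs with h
  · subst h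
    have : ⇑(@fourier (1 : ℝ) 0) = (fun _ => 1 : AddCircle (1 : ℝ) → ℂ) := by
      ext1; exact fourier_zero
    rw [this, integral_const, probReal_univ, one_smul]
  · exact integral_eq_zero_of_add_right_eq_neg (μ := haarAddCircle)
      (fourier_add_half_inv_index h one_pos)

/-- the trigonometric polynomial -/
noncomputable def ff (B : Finset ℤ) (z : AddCircle (1 : ℝ)) : ℂ := ∑ b ∈ B, (fourier b z : ℂ)

lemma cont_ff (B : Finset ℤ) : Continuous (ff B) :=
  continuous_finsetSum _ fun b _ => (fourier b).continuous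

/-- the density -/
noncomputable def gg (B : Finset ℤ) (c : ℝ) (z : AddCircle (1 : ℝ)) : ℝ := ‖ff B z‖ ^ 2 / c

lemma cont_gg (B : Finset ℤ) (c : ℝ) : Continuous (gg B c) :=
  ((cont_ff B).norm.pow 2).div_const c

/-- the measure -/
noncomputable def rr (B : Finset ℤ) (c : ℝ) : Measure (AddCircle (1 : ℝ)) :=
  haarAddCircle.withDensity fun z => ENNReal.ofReal (gg B c z)

instance (B : Finset ℤ) (c : ℝ) : IsFiniteMeasure (rr B c) :=
  isFiniteMeasure_withDensity_ofReal
    ((cont_gg B c).integrable_of_hasCompactSupport (HasCompactSupport.of_compactSpace _)).2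

lemma expand (B : Finset ℤ) (c : ℝ) (k : ℤ) (z : AddCircle (1 : ℝ)) :
    ((gg B c z : ℝ) : ℂ) * (fourier k z : ℂ) =
      ∑ b ∈ B, ∑ b' ∈ B, (c : ℂ)⁻¹ * (fourier (b + -b' + k) z : ℂ) := by
  have h1 : ((gg B c z : ℝ) : ℂ) = (c : ℂ)⁻¹ * (ff B z * conj (ff B z)) := by
    rw [RCLike.mul_conj, gg]
    push_cast
    rw [div_eq_mul_inv, mul_comm]
    rfl
  rw [h1, ff, map_sum, Finset.sum_mul_sum, mul_assoc, Finset.sum_mul, Finset.mul_sum]
  refine Finset.sum_congr rfl fun b _ => ?_
  rw [Finset.sum_mul, Finset.mul_sum]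
  refine Finset.sum_congr rfl fun b' _ => ?_
  rw [fourier_add, fourier_add, fourier_neg]

lemma int_rr (B : Finset ℤ) {c : ℝ} (hc : 0 < c) (k : ℤ) :
    ∫ z, (fourier k z : ℂ) ∂(rr B c) = (((B.filter fun b => b + k ∈ B).card : ℝ) / c : ℝ) := by
  rw [rr, integral_withDensity_eq_integral_toReal_smul
    (cont_gg B c).measurable.ennreal_ofReal (ae_of_all _ fun _ => ENNReal.ofReal_lt_top)]
  have h1 : ∀ z : AddCircle (1 : ℝ), (ENNReal.ofReal (gg B c z)).toReal • (fourier k z : ℂ) =
      ∑ b ∈ B, ∑ b' ∈ B, (c : ℂ)⁻¹ * (fourier (b + -b' + k) z : ℂ) := fun z => by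
    rw [ENNReal.toReal_ofReal (by unfold gg; positivity), ← expand, Complex.real_smul]
  simp_rw [h1]
  have hi : ∀ n : ℤ, Integrable (fun z : AddCircle (1 : ℝ) => (c : ℂ)⁻¹ * (fourier n z : ℂ))
      haarAddCircle := fun n =>
    (continuous_const.mul (fourier n).continuous).integrable_of_hasCompactSupport
      (HasCompactSupport.of_compactSpace _)
  rw [integral_finsetSum _ fun b _ => integrable_finsetSum _ fun b' _ => hi _]
  simp_rw [integral_finsetSum _ fun b' (_ : b' ∈ B) => hi _, integral_const_mul, int_fourier]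
  rw [Finset.card_filter]
  push_cast
  rw [Finset.sum_div]
  refine Finset.sum_congr rfl fun b _ => ?_
  rw [← Finset.mul_sum, div_eq_mul_inv, mul_comm]
  congr 1
  by_cases hb : b + k ∈ B
  · rw [if_pos hb, Finset.sum_eq_single (b + k)]
    · rw [if_pos (by ring)]
      norm_num
    · intro b' _ hne
      rw [if_neg]
      intro h0
      apply hne
      linarith
    · intro h; exact absurd hb h
  · rw [if_neg hb]
    refine Finset.sum_eq_zero fun b' hb' => ?_
    rw [if_neg]
    intro h0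
    apply hb
    have : b + k = b' := by linarith
    rw [this]
    exact hb'

theorem p_herg : P_HERG := by
  classical
  intro U ν hν
  let B : ℕ → Finset ℤ := fun T => (Finset.Icc (-(T : ℤ)) T).filter fun b => b ∈ U
  have hB : ∀ T b, b ∈ B T ↔ b ∈ U ∧ |(b : ℝ)| ≤ T := by
    intro T b
    simp only [B, Finset.mem_filter, Finset.mem_Icc]
    rw [and_comm, ← Int.cast_abs, abs_le.symm]
    refine and_congr_right fun _ => ?_
    exact_mod_cast Iff.rfl
  have hcard : ∀ (T : ℕ) (k : ℤ), ((B T).filter fun b => b + k ∈ B T).card =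
      (prz U k T).ncard := by
    intro T k
    rw [← Set.ncard_coe_finset]
    congr 1
    ext b
    simp only [Finset.coe_filter, Set.mem_ofPred_eq, prz, hB]
    tauto
  let ρ : ℕ → FiniteMeasure (AddCircle (1 : ℝ)) := fun T => ⟨rr (B T) (2 * T), inferInstance⟩
  have hρ : ∀ (T : ℕ), 0 < T → ∀ k : ℤ, ∫ z, (fourier k z : ℂ) ∂(ρ T : Measure (AddCircle (1 : ℝ))) =
      (((prz U k T).ncard / (2 * T) : ℝ) : ℂ) := by
    intro T hT k
    have : (0 : ℝ) < 2 * T := by positivity
    rw [← hcard]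
    exact int_rr (B T) this k
  have hlim : ∀ k : ℤ, Tendsto (fun T : ℕ => (((prz U k T).ncard / (2 * T) : ℝ) : ℂ)) atTop
      (𝓝 (ν k : ℂ)) := fun k =>
    (Complex.continuous_ofReal.tendsto _).comp ((hν k).comp tendsto_natCast_atTop_atTop)
  have hmass : ∀ T : ℕ, 0 < T → ((ρ T).mass : ℝ) = (prz U 0 T).ncard / (2 * T) := by
    intro T hT
    have h1 := hρ T hT 0
    have : ⇑(@fourier (1 : ℝ) 0) = (fun _ => 1 : AddCircle (1 : ℝ) → ℂ) := by
      ext1; exact fourier_zero
    rw [this, integral_const] at h1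
    have h2 : (((ρ T : Measure (AddCircle (1 : ℝ))).real Set.univ : ℝ) : ℂ) =
        (((prz U 0 T).ncard / (2 * T) : ℝ) : ℂ) := by
      rw [← h1, Complex.real_smul, mul_one]
    exact_mod_cast h2
  have hev : ∀ᶠ T : ℕ in atTop, (ρ T).mass ≤ (ν 0 + 1).toNNReal := by
    have h1 : Tendsto (fun T : ℕ => ((prz U 0 T).ncard / (2 * T) : ℝ)) atTop (𝓝 (ν 0)) :=
      (hν 0).comp tendsto_natCast_atTop_atTop
    filter_upwards [h1.eventually (eventually_lt_nhds (lt_add_one (ν 0))), eventually_gt_atTop 0]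
      with T hT hT0
    rw [← NNReal.coe_le_coe, hmass T hT0]
    exact hT.le.trans (Real.le_coe_toNNReal _)
  have hF : (hyperfilter ℕ : Filter ℕ) ≤ atTop := by
    rw [← Nat.cofinite_eq_atTop]
    exact hyperfilter_le_cofinite
  obtain ⟨ρ', -, hle⟩ := (isCompact_setOfPred_finiteMeasure_le_of_compactSpace
    (AddCircle (1 : ℝ)) (ν 0 + 1).toNNReal).ultrafilter_le_nhds
    ((hyperfilter ℕ).map ρ) (by
      rw [le_principal_iff]
      exact hF hev)
  have hten : Tendsto ρ (hyperfilter ℕ : Filter ℕ) (𝓝 ρ') := hle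
  refine ⟨(ρ' : Measure (AddCircle (1 : ℝ))), inferInstance, fun k => ?_⟩
  have h1 := (FiniteMeasure.tendsto_iff_forall_integral_rclike_tendsto ℂ).1 hten
    (BoundedContinuousFunction.mkOfCompact (fourier k))
  have h2 : Tendsto (fun T : ℕ => ∫ z, (fourier k z : ℂ) ∂(ρ T : Measure (AddCircle (1 : ℝ))))
      (hyperfilter ℕ : Filter ℕ) (𝓝 (ν k : ℂ)) := by
    refine ((hlim k).congr' ?_).mono_left hF
    filter_upwards [eventually_gt_atTop 0] with T hT
    exact (hρ T hT k).symm
  exact tendsto_nhds_unique h1 h2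

end Pool.Agent.W2helper12.KC
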